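import Mathlib
import Pool.Agent.Q96.FockMeanP

/-!
# A maximal estimate for entire functions with slowly varying weights

Balls of radius `a / (1 + |z|)`.
-/

set_option autoImplicit false

open MeasureTheory Set Filter Topology ENNReal Metric

namespace Q72.FockR

/-- the space `ℂⁿ` -/
abbrev E (n : ℕ) : Type := EuclideanSpace ℂ (Fin n)

variable {n : ℕ}

/-- change of variables `y ↦ w + ρ y` -/
lemma lintegral_scale {ρ : ℝ} (hρ : 0 < ρ) (w : E n) (G : E n → ℝ≥0∞) (hG : Measurable G) :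
    ∫⁻ y, G (w + ρ • y) = ENNReal.ofReal ((ρ ^ Module.finrank ℝ (E n))⁻¹) * ∫⁻ y, G y := by
  have h1 : ∫⁻ y, G (w + ρ • y) = ∫⁻ y, (fun x => G (w + x)) y ∂(Measure.map (fun x : E n => ρ • x)
      volume) :=
    (lintegral_map (hG.comp (measurable_const_add w)) (measurable_const_smul ρ)).symm
  rw [h1, Measure.map_addHaar_smul _ hρ.ne', abs_of_pos (by positivity), lintegral_smul_measure,
    lintegral_add_left_eq_self (fun x => G x) w]
  rfl

lemma setLIntegral_scale {ρ : ℝ} (hρ : 0 < ρ) (w : E n) (G : E n → ℝ≥0∞) (hG : Measurable G) :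
    ∫⁻ y in ball (0 : E n) 1, G (w + ρ • y) =
      ENNReal.ofReal ((ρ ^ Module.finrank ℝ (E n))⁻¹) * ∫⁻ y in ball w ρ, G y := by
  rw [← lintegral_indicator measurableSet_ball, ← lintegral_indicator measurableSet_ball,
    ← lintegral_scale hρ w _ (hG.indicator measurableSet_ball)]
  apply lintegral_congr
  intro y
  have : w + ρ • y ∈ ball w ρ ↔ y ∈ ball (0 : E n) 1 := by
    rw [mem_ball_iff_norm, add_sub_cancel_left, mem_ball_zero_iff, norm_smul, Real.norm_eq_abs,
      abs_of_pos hρ]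
    constructor
    · intro h; nlinarith
    · intro h; nlinarith
  by_cases hy : y ∈ ball (0 : E n) 1
  · rw [indicator_of_mem hy, indicator_of_mem (this.2 hy)]
  · rw [indicator_of_notMem hy, indicator_of_notMem (fun h => hy (this.1 h))]

/-- sub-mean value inequality on balls of radius `ρ` -/
lemma sub_mean_scaled (hn : 1 ≤ n) {p : ℝ} (hp : 0 < p) :
    ∃ c : ℝ, 0 < c ∧ ∀ (F : E n → ℂ), Differentiable ℂ F → ∀ (w : E n) (ρ : ℝ), 0 < ρ →
      ENNReal.ofReal (‖F w‖ ^ p) ≤ ENNReal.ofReal (c * (ρ ^ Module.finrank ℝ (E n))⁻¹) *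
        ∫⁻ y in ball w ρ, ENNReal.ofReal (‖F y‖ ^ p) := by
  obtain ⟨c, hc, h⟩ := Q96.FockMean.sub_mean_rpow hn hp
  refine ⟨c⁻¹, by positivity, fun F hF w ρ hρ => ?_⟩
  have h1 := h (fun y => F (w + ρ • y)) (hF.comp (by fun_prop)) 0
  rw [smul_zero, add_zero] at h1
  have h2 := setLIntegral_scale hρ w (fun y => ENNReal.ofReal (‖F y‖ ^ p))
    (by
      have := hF.continuous.measurable
      fun_prop)
  rw [h2] at h1
  have h3 : ENNReal.ofReal (‖F w‖ ^ p) = ENNReal.ofReal c⁻¹ * ENNReal.ofReal (c * ‖F w‖ ^ p) := by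
    rw [← ENNReal.ofReal_mul (by positivity)]
    congr 1
    field_simp
  rw [h3, ENNReal.ofReal_mul (by positivity : 0 ≤ c⁻¹), mul_assoc]
  gcongr

/-- slowly varying weights -/
def Slow (ω : E n → ℝ) : Prop :=
  Continuous ω ∧ (∀ z, 0 < ω z) ∧
    ∀ b : ℝ, ∃ C : ℝ, 0 < C ∧ ∀ y z : E n, ‖y - z‖ < b / (1 + ‖z‖) → ω z ≤ C * ω y

/-- **Maximal estimate.** -/
theorem maximal (hn : 1 ≤ n) {p : ℝ} (hp : 0 < p) {ω : E n → ℝ} (hω : Slow ω) {a : ℝ}
    (ha : 0 < a) : ∃ C : ℝ, 0 < C ∧ ∀ (h : E n → ℂ), Differentiable ℂ h → ∀ (w : E n → E n),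
      (∀ z, ‖w z - z‖ ≤ a / (1 + ‖z‖)) →
      ∫⁻ z, ENNReal.ofReal (‖h (w z)‖ ^ p * ω z ^ p) ≤
        ENNReal.ofReal C * ∫⁻ z, ENNReal.ofReal (‖h z‖ ^ p * ω z ^ p) := by
  obtain ⟨c, hc, hmean⟩ := sub_mean_scaled hn hp
  obtain ⟨b, hb⟩ : ∃ b : ℝ, b = a + 1 := ⟨_, rfl⟩
  have hb0 : 0 < b := by rw [hb]; linarith
  obtain ⟨C1, hC1, hslow⟩ := hω.2.2 b
  obtain ⟨d, hd⟩ : ∃ d : ℕ, d = Module.finrank ℝ (E n) := ⟨_, rfl⟩
  rw [← hd] at hmean
  obtain ⟨V, hV⟩ : ∃ V : ℝ, V = (volume (ball (0 : E n) 1)).toReal := ⟨_, rfl⟩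
  have hVpos : 0 < V := by
    rw [hV]; exact ENNReal.toReal_pos (measure_ball_pos _ _ one_pos).ne' measure_ball_lt_top.ne
  have hVe : volume (ball (0 : E n) 1) = ENNReal.ofReal V := by
    rw [hV]; exact (ENNReal.ofReal_toReal measure_ball_lt_top.ne).symm
  refine ⟨c * C1 ^ p * (1 + b) ^ d * (b * (1 + b)) ^ d * V, by positivity, fun h hh w hw => ?_⟩
  -- the kernel
  have hS : MeasurableSet {q : E n × E n | ‖q.2 - q.1‖ < b / (1 + ‖q.1‖)} := by
    apply IsOpen.measurableSet
    apply isOpen_lt (by fun_prop)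
    apply Continuous.div continuous_const (by fun_prop)
    intro q
    have := norm_nonneg q.1
    linarith
  obtain ⟨H, hH⟩ : ∃ H : E n → ℝ≥0∞, H = fun y => ENNReal.ofReal (‖h y‖ ^ p) := ⟨_, rfl⟩
  have hHm : Measurable H := by
    have := hh.continuous.measurable
    rw [hH]
    fun_prop
  obtain ⟨A, hA⟩ : ∃ A : E n → ℝ≥0∞, A = fun z => ENNReal.ofReal (c * (1 + ‖z‖) ^ d * ω z ^ p) :=
    ⟨_, rfl⟩
  have hωm : Measurable ω := hω.1.measurable
  have hAm : Measurable A := by rw [hA]; fun_prop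
  obtain ⟨K, hK⟩ : ∃ K : E n → E n → ℝ≥0∞, K = fun z y =>
    A z * ({q : E n × E n | ‖q.2 - q.1‖ < b / (1 + ‖q.1‖)}.indicator (fun q => H q.2) (z, y)) :=
    ⟨_, rfl⟩
  have hKm : Measurable (Function.uncurry K) := by
    rw [hK]
    apply Measurable.mul
    · exact hAm.comp measurable_fst
    · exact ((hHm.comp measurable_snd).indicator hS)
  have hstep1 : ∀ z, ENNReal.ofReal (‖h (w z)‖ ^ p * ω z ^ p) ≤ ∫⁻ y, K z y := by
    intro z
    have hz : 0 < 1 + ‖z‖ := by have := norm_nonneg z; linarith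
    have h1 := hmean h hh (w z) (1 / (1 + ‖z‖)) (by positivity)
    have h2 : ball (w z) (1 / (1 + ‖z‖)) ⊆ {y | ‖y - z‖ < b / (1 + ‖z‖)} := by
      intro y hy
      rw [mem_ball_iff_norm] at hy
      have h3 : ‖y - z‖ ≤ ‖y - w z‖ + ‖w z - z‖ := by
        have := norm_add_le (y - w z) (w z - z)
        simpa using this
      have h4 := hw z
      have h5 : b / (1 + ‖z‖) = a / (1 + ‖z‖) + 1 / (1 + ‖z‖) := by rw [hb]; ring
      change ‖y - z‖ < b / (1 + ‖z‖)
      linarith
    have hSz : MeasurableSet {y : E n | ‖y - z‖ < b / (1 + ‖z‖)} := by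
      have := hS.preimage (measurable_prodMk_left (x := z))
      exact this
    have h3 : ∫⁻ y, K z y = A z * ∫⁻ y in {y | ‖y - z‖ < b / (1 + ‖z‖)}, H y := by
      rw [hK]
      simp only
      rw [lintegral_const_mul' _ _ (by rw [hA]; exact ENNReal.ofReal_ne_top),
        ← lintegral_indicator hSz]
      rfl
    rw [h3]
    have h4 : ENNReal.ofReal (‖h (w z)‖ ^ p * ω z ^ p) =
        ENNReal.ofReal (‖h (w z)‖ ^ p) * ENNReal.ofReal (ω z ^ p) := by
      rw [ENNReal.ofReal_mul (by positivity)]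
    rw [h4]
    have hωz := hω.2.1 z
    have h5 : A z = ENNReal.ofReal (c * ((1 / (1 + ‖z‖)) ^ d)⁻¹) * ENNReal.ofReal (ω z ^ p) := by
      rw [hA, ← ENNReal.ofReal_mul (by positivity)]
      simp only [one_div, inv_pow, inv_inv]
    rw [h5, mul_right_comm]
    gcongr
    refine h1.trans ?_
    rw [hH]
    gcongr
  calc ∫⁻ z, ENNReal.ofReal (‖h (w z)‖ ^ p * ω z ^ p) ≤ ∫⁻ z, ∫⁻ y, K z y := lintegral_mono hstep1
    _ = ∫⁻ y, ∫⁻ z, K z y := lintegral_lintegral_swap hKm.aemeasurable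
    _ ≤ ∫⁻ y, ENNReal.ofReal (c * C1 ^ p * (1 + b) ^ d * (b * (1 + b)) ^ d * V) *
          ENNReal.ofReal (‖h y‖ ^ p * ω y ^ p) := by
        apply lintegral_mono
        intro y
        have hy : 0 < 1 + ‖y‖ := by have := norm_nonneg y; linarith
        have hωy := hω.2.1 y
        have h1 : ∀ z, K z y ≤ (ball y (b * (1 + b) / (1 + ‖y‖))).indicator
            (fun _ => ENNReal.ofReal (c * ((1 + b) * (1 + ‖y‖)) ^ d * (C1 * ω y) ^ p) * H y) z := by
          intro z
          rw [hK]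
          simp only
          by_cases hzy : ‖y - z‖ < b / (1 + ‖z‖)
          · have hz : 0 < 1 + ‖z‖ := by have := norm_nonneg z; linarith
            have hzb : ‖y - z‖ < b := by
              refine lt_of_lt_of_le hzy (div_le_self hb0.le ?_)
              have := norm_nonneg z; linarith
            have hyz : ‖y‖ ≤ ‖z‖ + b := by
              have := norm_sub_norm_le y z
              linarith
            have hzy2 : ‖z‖ ≤ ‖y‖ + b := by
              have := norm_sub_norm_le z y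
              rw [norm_sub_rev] at this
              linarith
            have h2 : 1 + ‖y‖ ≤ (1 + b) * (1 + ‖z‖) := by nlinarith [norm_nonneg z]
            have h3 : 1 + ‖z‖ ≤ (1 + b) * (1 + ‖y‖) := by nlinarith [norm_nonneg y]
            have h4 : z ∈ ball y (b * (1 + b) / (1 + ‖y‖)) := by
              rw [mem_ball_iff_norm, norm_sub_rev]
              refine lt_of_lt_of_le hzy ?_
              rw [div_le_div_iff₀ hz hy]
              nlinarith
            have h5 : (z, y) ∈ {q : E n × E n | ‖q.2 - q.1‖ < b / (1 + ‖q.1‖)} := hzy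
            rw [indicator_of_mem h4, indicator_of_mem h5, hA]
            simp only
            have h6 := hslow y z hzy
            have h7 := hω.2.1 z
            gcongr
          · have h5 : (z, y) ∉ {q : E n × E n | ‖q.2 - q.1‖ < b / (1 + ‖q.1‖)} := hzy
            rw [indicator_of_notMem h5, mul_zero]
            exact zero_le
        refine (lintegral_mono h1).trans ?_
        rw [lintegral_indicator measurableSet_ball, setLIntegral_const]
        have h2 : volume (ball y (b * (1 + b) / (1 + ‖y‖))) =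
            ENNReal.ofReal ((b * (1 + b) / (1 + ‖y‖)) ^ d * V) := by
          rw [Measure.addHaar_ball_of_pos _ _ (by positivity), ← hd, hVe,
            ← ENNReal.ofReal_mul (by positivity)]
        rw [h2, hH]
        simp only
        rw [← ENNReal.ofReal_mul (by positivity), ← ENNReal.ofReal_mul (by positivity),
          ← ENNReal.ofReal_mul (by positivity)]
        apply ENNReal.ofReal_le_ofReal
        apply le_of_eq
        rw [Real.mul_rpow hC1.le hωy.le]
        rw [mul_pow, div_pow]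
        field_simp
    _ = _ := by rw [lintegral_const_mul' _ _ ENNReal.ofReal_ne_top]

end Q72.FockR
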