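import Mathlib
import Pool.Agent.Q93.MC.Osg
import Pool.Agent.Q72.FockR.Mean

/-!
# The radial derivative of entire functions on `ℂⁿ`, weights
-/

set_option autoImplicit false

open MeasureTheory Set Filter Topology ENNReal Metric

namespace Q72.FockR

variable {n : ℕ}

/-- the radial derivative `R f (z) = ∑ z_k ∂f/∂z_k (z)` -/
noncomputable def radial (f : E n → ℂ) (z : E n) : ℂ :=
  ∑ k, z k * fderiv ℂ f z (EuclideanSpace.single k 1)

lemma radial_eq (f : E n → ℂ) (z : E n) : radial f z = fderiv ℂ f z z := by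
  unfold radial
  have hz : z = ∑ k, z k • (EuclideanSpace.single k (1 : ℂ) : E n) := by
    ext i
    simp [Finset.sum_apply, Pi.single_apply]
  conv_rhs => rw [hz, map_sum]
  apply Finset.sum_congr rfl
  intro k _
  rw [map_smul, smul_eq_mul]
  congr 2
  rw [← hz]

lemma analytic_of_diff {f : E n → ℂ} (hf : Differentiable ℂ f) : AnalyticOnNhd ℂ f univ := by
  intro z _
  obtain ⟨e, he⟩ : ∃ e : E n ≃L[ℂ] (Fin n → ℂ), e = EuclideanSpace.equiv (Fin n) ℂ := ⟨_, rfl⟩
  have h1 : AnalyticAt ℂ (f ∘ e.symm) (e z) := by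
    apply Pool.Agent.Q93.MC.analyticAt_of_differentiable n (e z) 1 one_pos
    intro y _
    exact (hf.comp e.symm.differentiable) y
  have h2 : AnalyticAt ℂ ((f ∘ e.symm) ∘ e) z :=
    h1.comp (e.toContinuousLinearMap.analyticAt z)
  have h3 : (f ∘ e.symm) ∘ e = f := by
    ext y; simp
  rwa [h3] at h2

lemma differentiable_radial {f : E n → ℂ} (hf : Differentiable ℂ f) :
    Differentiable ℂ (radial f) := by
  have h1 : radial f = fun z => fderiv ℂ f z z := funext (radial_eq f)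
  rw [h1]
  intro z
  have h2 : AnalyticAt ℂ (fderiv ℂ f) z := (analytic_of_diff hf z (mem_univ z)).fderiv
  exact h2.differentiableAt.clm_apply differentiableAt_id

lemma differentiable_iterate {f : E n → ℂ} (hf : Differentiable ℂ f) (N : ℕ) :
    Differentiable ℂ (radial^[N] f) := by
  induction N with
  | zero => exact hf
  | succ N ih =>
    rw [Function.iterate_succ_apply']
    exact differentiable_radial ih

/-- maximizers of `|h|` over the balls of radius `a / (1 + |z|)` -/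
lemma exists_maximizer {h : E n → ℂ} (hh : Continuous h) {a : ℝ} (ha : 0 < a) :
    ∃ w : E n → E n, (∀ z, ‖w z - z‖ ≤ a / (1 + ‖z‖)) ∧
      ∀ z y, ‖y - z‖ ≤ a / (1 + ‖z‖) → ‖h y‖ ≤ ‖h (w z)‖ := by
  have : ∀ z : E n, ∃ w ∈ closedBall z (a / (1 + ‖z‖)),
      ∀ y ∈ closedBall z (a / (1 + ‖z‖)), ‖h y‖ ≤ ‖h w‖ := by
    intro z
    have hz : 0 < 1 + ‖z‖ := by have := norm_nonneg z; linarith
    obtain ⟨w, hw, hmax⟩ := (isCompact_closedBall z (a / (1 + ‖z‖))).exists_isMaxOn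
      (f := fun y => ‖h y‖) ⟨z, mem_closedBall_self (by positivity)⟩ hh.norm.continuousOn
    exact ⟨w, hw, fun y hy => hmax hy⟩
  choose w hw hmax using this
  refine ⟨w, fun z => ?_, fun z y hy => hmax z y ?_⟩
  · have := hw z
    rwa [mem_closedBall_iff_norm] at this
  · rwa [mem_closedBall_iff_norm]

/-- the Cauchy estimate for the radial derivative -/
lemma norm_radial_le {g : E n → ℂ} (hg : Differentiable ℂ g) {z : E n} {M : ℝ}
    (hM : ∀ y, ‖y - z‖ ≤ 2 / (1 + ‖z‖) → ‖g y‖ ≤ M) : ‖radial g z‖ ≤ (1 + ‖z‖ ^ 2) * M := by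
  have hz := norm_nonneg z
  have hz1 : 0 < 1 + ‖z‖ := by linarith
  have hz2 : 0 < 1 + ‖z‖ ^ 2 := by positivity
  have hd : Differentiable ℂ (fun t : ℂ => g (z + t • z)) := hg.comp (by fun_prop)
  have h1 : deriv (fun t : ℂ => g (z + t • z)) 0 = radial g z := by
    rw [radial_eq]
    have h2 : HasDerivAt (fun t : ℂ => z + t • z) z 0 := by
      simpa using ((hasDerivAt_id (0 : ℂ)).smul_const z).const_add z
    have h3 : HasFDerivAt g (fderiv ℂ g z) (z + (0 : ℂ) • z) := by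
      rw [zero_smul, add_zero]; exact (hg z).hasFDerivAt
    exact (h3.comp_hasDerivAt (0 : ℂ) h2).deriv
  have h4 := Complex.norm_deriv_le_of_forall_mem_sphere_norm_le (c := (0 : ℂ)) (C := M)
    (R := 1 / (1 + ‖z‖ ^ 2)) (by positivity) (f := fun t : ℂ => g (z + t • z)) hd.diffContOnCl
    (fun t ht => by
      apply hM
      rw [mem_sphere_zero_iff_norm] at ht
      rw [add_sub_cancel_left, norm_smul, ht, one_div, inv_mul_eq_div,
        div_le_div_iff₀ hz2 hz1]
      nlinarith)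
  rw [h1] at h4
  rw [div_div_eq_mul_div, div_one] at h4
  linarith

/-- derivative along rays -/
lemma hasDerivAt_ray {g : E n → ℂ} (hg : Differentiable ℂ g) (z : E n) (t : ℝ) :
    HasDerivAt (fun t : ℝ => g (t • z)) (fderiv ℂ g (t • z) z) t := by
  have h2 : HasDerivAt (fun t : ℝ => t • z) z t := by
    simpa using (hasDerivAt_id t).smul_const z
  have h3 : HasFDerivAt g ((fderiv ℂ g (t • z)).restrictScalars ℝ) (t • z) :=
    (hg (t • z)).hasFDerivAt.restrictScalars ℝ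
  exact h3.comp_hasDerivAt t h2

lemma ray_eq (g : E n → ℂ) (z : E n) {t : ℝ} (ht : t ≠ 0) :
    fderiv ℂ g (t • z) z = (t : ℂ)⁻¹ * radial g (t • z) := by
  rw [radial_eq, ← Complex.coe_smul, map_smul, smul_eq_mul, ← mul_assoc, inv_mul_cancel₀, one_mul]
  exact_mod_cast ht

/-- the weights `exp (-α |z|² / 2) / (1 + |z|²)^j` -/
noncomputable def wt (α : ℝ) (j : ℕ) (z : E n) : ℝ :=
  Real.exp (-(α * ‖z‖ ^ 2 / 2)) / (1 + ‖z‖ ^ 2) ^ j

lemma wt_pos (α : ℝ) (j : ℕ) (z : E n) : 0 < wt α j z := by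
  unfold wt; positivity

lemma continuous_wt (α : ℝ) (j : ℕ) : Continuous (wt α j : E n → ℝ) := by
  unfold wt
  apply Continuous.div (by fun_prop) (by fun_prop)
  intro z; positivity

lemma slow_wt {α : ℝ} (hα : 0 < α) (j : ℕ) : Slow (wt α j : E n → ℝ) := by
  refine ⟨continuous_wt α j, wt_pos α j, fun b => ?_⟩
  rcases le_or_gt b 0 with hb | hb
  · refine ⟨1, one_pos, fun y z h => ?_⟩
    exfalso
    have hz : 0 < 1 + ‖z‖ := by have := norm_nonneg z; linarith
    have h1 : b / (1 + ‖z‖) ≤ 0 := div_nonpos_of_nonpos_of_nonneg hb hz.le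
    have h2 := norm_nonneg (y - z)
    linarith
  · refine ⟨Real.exp (α * (2 * b + b ^ 2) / 2) * ((1 + b) ^ 2) ^ j, by positivity,
      fun y z h => ?_⟩
    have hz0 := norm_nonneg z
    have hz : 0 < 1 + ‖z‖ := by linarith
    have h1 : ‖y - z‖ * (1 + ‖z‖) < b := by rwa [lt_div_iff₀ hz] at h
    have h0 := norm_nonneg (y - z)
    have h2 : ‖y‖ ≤ ‖z‖ + ‖y - z‖ := by
      have := norm_sub_norm_le y z
      linarith
    have h3 : ‖y - z‖ < b := by nlinarith
    have h4 : ‖y‖ ^ 2 ≤ ‖z‖ ^ 2 + (2 * b + b ^ 2) := by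
      have : ‖y‖ ^ 2 ≤ (‖z‖ + ‖y - z‖) ^ 2 := by gcongr
      nlinarith
    have h5 : 1 + ‖y‖ ^ 2 ≤ (1 + b) ^ 2 * (1 + ‖z‖ ^ 2) := by nlinarith [sq_nonneg ‖z‖]
    unfold wt
    rw [mul_div_assoc', div_le_div_iff₀ (by positivity) (by positivity)]
    calc Real.exp (-(α * ‖z‖ ^ 2 / 2)) * (1 + ‖y‖ ^ 2) ^ j ≤
          (Real.exp (α * (2 * b + b ^ 2) / 2) * Real.exp (-(α * ‖y‖ ^ 2 / 2))) *
          ((1 + b) ^ 2 * (1 + ‖z‖ ^ 2)) ^ j := by
          gcongr
          rw [← Real.exp_add]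
          apply Real.exp_le_exp.2
          nlinarith
      _ = _ := by rw [mul_pow]; ring

lemma wt_decay {α : ℝ} (hα : 0 < α) (j : ℕ) {z : E n} {t c : ℝ} (ht0 : 0 ≤ t) (ht1 : t ≤ 1)
    (h : c ≤ ‖z‖ ^ 2 * (1 - t ^ 2)) : wt α j z ≤ Real.exp (-(α * c / 2)) * wt α j (t • z) := by
  unfold wt
  rw [norm_smul, Real.norm_eq_abs, abs_of_nonneg ht0, mul_div_assoc']
  apply div_le_div₀ (by positivity)
  · rw [← Real.exp_add]
    apply Real.exp_le_exp.2
    nlinarith
  · positivity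
  · have : t ^ 2 ≤ 1 := by nlinarith
    gcongr
    exact mul_le_of_le_one_left (norm_nonneg z) ht1

end Q72.FockR
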