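import Mathlib
import Pool.Agent.Q72.FockR.Radial

/-!
# The two one-step inequalities for `0 < p < ∞`
-/

set_option autoImplicit false

open MeasureTheory Set Filter Topology ENNReal Metric

namespace Q72.FockR

variable {n : ℕ}

/-- the integral `∫ |g|^p w_j^p` -/
noncomputable def FI (p α : ℝ) (j : ℕ) (g : E n → ℂ) : ℝ≥0∞ :=
  ∫⁻ z, ENNReal.ofReal (‖g z‖ ^ p * wt α j z ^ p)

lemma wt_succ (α : ℝ) (j : ℕ) (z : E n) : wt α (j + 1) z = wt α j z / (1 + ‖z‖ ^ 2) := by
  unfold wt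
  rw [pow_succ (1 + ‖z‖ ^ 2) j, div_div]

/-- the known direction -/
theorem FI_radial_lt_top (hn : 1 ≤ n) {p α : ℝ} (hp : 0 < p) (hα : 0 < α) (j : ℕ) {g : E n → ℂ}
    (hg : Differentiable ℂ g) (h : FI p α j g < ⊤) : FI p α (j + 1) (radial g) < ⊤ := by
  obtain ⟨C, hC, hmax⟩ := maximal hn hp (slow_wt (n := n) hα j) (two_pos)
  obtain ⟨w, hw, hwm⟩ := exists_maximizer hg.continuous two_pos
  have h1 := hmax g hg w hw
  refine lt_of_le_of_lt ?_ (lt_of_le_of_lt h1 (ENNReal.mul_lt_top ENNReal.ofReal_lt_top h))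
  apply lintegral_mono
  intro z
  apply ENNReal.ofReal_le_ofReal
  have h2 := norm_radial_le hg (hwm z)
  rw [wt_succ, ← Real.mul_rpow (norm_nonneg _) (by have := wt_pos α j z; positivity),
    ← Real.mul_rpow (norm_nonneg _) (wt_pos α j z).le]
  apply Real.rpow_le_rpow _ _ hp.le
  · have := wt_pos α j z
    positivity
  · rw [mul_div_assoc', div_le_iff₀ (by positivity)]
    have := wt_pos α j z
    calc ‖radial g z‖ * wt α j z ≤ (1 + ‖z‖ ^ 2) * ‖g (w z)‖ * wt α j z := by gcongr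
      _ = _ := by ring

/-- the shells -/
def Sh (k : ℕ) : Set (E n) := {z | (2 : ℝ) ^ k ≤ ‖z‖ ∧ ‖z‖ < (2 : ℝ) ^ (k + 1)}

lemma measurableSet_Sh (k : ℕ) : MeasurableSet (Sh k : Set (E n)) :=
  (measurableSet_le measurable_const measurable_norm).inter
    (measurableSet_lt measurable_norm measurable_const)

lemma add_rpow_le {a b p : ℝ} (ha : 0 ≤ a) (hb : 0 ≤ b) (hp : 0 < p) :
    (a + b) ^ p ≤ 2 ^ p * (a ^ p + b ^ p) := by
  have h1 : a + b ≤ 2 * max a b := by
    have := le_max_left a b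
    have := le_max_right a b
    linarith
  have h2 : (max a b) ^ p ≤ a ^ p + b ^ p := by
    rcases max_choice a b with h | h <;> rw [h]
    · have : 0 ≤ b ^ p := by positivity
      linarith
    · have : 0 ≤ a ^ p := by positivity
      linarith
  calc (a + b) ^ p ≤ (2 * max a b) ^ p := Real.rpow_le_rpow (by positivity) h1 hp.le
    _ = 2 ^ p * (max a b) ^ p := Real.mul_rpow (by norm_num) (by positivity)
    _ ≤ _ := by gcongr

lemma absorb {A a B : ℝ≥0∞} (hA : A ≠ ⊤) (h : A ≤ ENNReal.ofReal (1 / 3) * (A + (a + A)) + B) :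
    A ≤ a + 3 * B := by
  by_cases ha : a = ⊤
  · simp [ha]
  by_cases hB : B = ⊤
  · rw [hB, ENNReal.mul_top (by norm_num)]; simp
  lift A to NNReal using hA
  lift a to NNReal using ha
  lift B to NNReal using hB
  have e : ENNReal.ofReal (1 / 3) = ((1 / 3 : NNReal) : ℝ≥0∞) := by
    rw [ENNReal.ofReal]
    congr 1
    ext
    simp
  rw [e] at h
  have h2 : A ≤ (1 / 3 : NNReal) * (A + (a + A)) + B := by exact_mod_cast h
  have h3 : (A : ℝ) ≤ (1 / 3 : ℝ) * (A + (a + A)) + B := by exact_mod_cast h2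
  have h4 : (A : ℝ) ≤ a + 3 * B := by linarith
  exact_mod_cast h4

lemma exists_c {K γ : ℝ} (hK : 0 < K) (hγ : 0 < γ) :
    ∃ c : ℝ, 1 ≤ c ∧ K * Real.exp (-(γ * c)) ≤ 1 / 3 := by
  refine ⟨max 1 (Real.log (3 * K) / γ), le_max_left _ _, ?_⟩
  have h1 : Real.log (3 * K) ≤ γ * max 1 (Real.log (3 * K) / γ) := by
    have := le_max_right 1 (Real.log (3 * K) / γ)
    rw [div_le_iff₀ hγ] at this
    linarith
  calc K * Real.exp (-(γ * max 1 (Real.log (3 * K) / γ))) ≤ K * Real.exp (-Real.log (3 * K)) := by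
        gcongr
    _ = 1 / 3 := by
        rw [Real.exp_neg, Real.exp_log (by positivity)]
        field_simp

/-- pointwise comparison along rays -/
lemma ray_diff {g : E n → ℂ} (hg : Differentiable ℂ g) {c M : ℝ} (hc : 1 ≤ c) {k : ℕ}
    (hck : c * (1 / 4) ^ k ≤ 1 / 2) {z : E n} (hz : z ∈ Sh k)
    (hM : ∀ y, ‖y - z‖ ≤ 8 * c / (1 + ‖z‖) → ‖radial g y‖ ≤ M) :
    ‖g z - g ((1 - c * (1 / 4) ^ k) • z)‖ ≤ 16 * c * M / (1 + ‖z‖ ^ 2) := by
  obtain ⟨t, ht⟩ : ∃ t : ℝ, t = 1 - c * (1 / 4) ^ k := ⟨_, rfl⟩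
  obtain ⟨q, hq⟩ : ∃ q : ℝ, q = (1 / 4 : ℝ) ^ k := ⟨_, rfl⟩
  rw [← ht]
  rw [← hq] at ht hck
  have hq0 : 0 < q := by rw [hq]; positivity
  have hz1 := hz.1
  have hz2 := hz.2
  have h2k : (1 : ℝ) ≤ 2 ^ k := one_le_pow₀ (by norm_num)
  have hzn : 1 ≤ ‖z‖ := h2k.trans hz1
  have h4 : ‖z‖ ^ 2 * q ≤ 4 := by
    have h5 : ‖z‖ ^ 2 ≤ ((2 : ℝ) ^ (k + 1)) ^ 2 := by gcongr
    have h6 : ((2 : ℝ) ^ (k + 1)) ^ 2 * q = 4 := by
      have e : ((2 : ℝ) ^ (k + 1)) ^ 2 = 4 * 4 ^ k := by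
        rw [← pow_mul, mul_comm, pow_mul, pow_succ]
        norm_num
        ring
      rw [e, hq, mul_assoc, ← mul_pow]
      norm_num
    calc ‖z‖ ^ 2 * q ≤ ((2 : ℝ) ^ (k + 1)) ^ 2 * q := by gcongr
      _ = 4 := h6
  have ht1 : 1 / 2 ≤ t := by rw [ht]; linarith
  have ht2 : t ≤ 1 := by rw [ht]; nlinarith
  have hM0 : 0 ≤ M := (norm_nonneg _).trans (hM z (by rw [sub_self, norm_zero]; positivity))
  have key : ‖(fun s : ℝ => g (s • z)) 1 - (fun s : ℝ => g (s • z)) t‖ ≤ 2 * M * ‖(1 : ℝ) - t‖ := by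
    apply Convex.norm_image_sub_le_of_norm_hasDerivWithin_le (s := Icc t 1)
      (f := fun s : ℝ => g (s • z)) (f' := fun s => fderiv ℂ g (s • z) z)
    · intro s _
      exact (hasDerivAt_ray hg z s).hasDerivWithinAt
    · intro s hs
      have hs0 : 1 / 2 ≤ s := ht1.trans hs.1
      rw [ray_eq g z (by linarith : s ≠ 0), norm_mul, norm_inv, Complex.norm_real,
        Real.norm_eq_abs, abs_of_pos (by linarith)]
      have h5 : ‖radial g (s • z)‖ ≤ M := by
        apply hM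
        have h6 : s • z - z = (s - 1) • z := by rw [sub_smul, one_smul]
        rw [h6, norm_smul, Real.norm_eq_abs, abs_of_nonpos (by linarith [hs.2]),
          le_div_iff₀ (by linarith)]
        have h7 : -(s - 1) ≤ c * q := by have := hs.1; linarith
        calc -(s - 1) * ‖z‖ * (1 + ‖z‖) ≤ c * q * ‖z‖ * (‖z‖ + ‖z‖) := by gcongr
          _ = 2 * c * (‖z‖ ^ 2 * q) := by ring
          _ ≤ 2 * c * 4 := by gcongr
          _ = 8 * c := by ring
      have h8 : s⁻¹ ≤ 2 := by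
        rw [inv_le_comm₀ (by linarith) two_pos]; linarith
      exact mul_le_mul h8 h5 (norm_nonneg _) (by norm_num)
    · exact convex_Icc t 1
    · exact ⟨le_rfl, ht2⟩
    · exact ⟨ht2, le_rfl⟩
  simp only [one_smul] at key
  refine key.trans ?_
  rw [Real.norm_eq_abs, abs_of_nonneg (by linarith), le_div_iff₀ (by positivity)]
  have h9 : 1 - t = c * q := by rw [ht]; ring
  rw [h9]
  have h10 : q * (1 + ‖z‖ ^ 2) ≤ 8 := by nlinarith
  calc 2 * M * (c * q) * (1 + ‖z‖ ^ 2) = 2 * M * c * (q * (1 + ‖z‖ ^ 2)) := by ring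
    _ ≤ 2 * M * c * 8 := by gcongr
    _ = _ := by ring

/-- the open direction -/
theorem FI_lt_top (hn : 1 ≤ n) {p α : ℝ} (hp : 0 < p) (hα : 0 < α) (j : ℕ) {g : E n → ℂ}
    (hg : Differentiable ℂ g) (h : FI p α (j + 1) (radial g) < ⊤) : FI p α j g < ⊤ := by
  obtain ⟨d, hd⟩ : ∃ d : ℕ, d = Module.finrank ℝ (E n) := ⟨_, rfl⟩
  obtain ⟨c, hc1, hc⟩ := exists_c (K := 2 ^ p * 2 ^ d) (γ := α / 2 * p) (by positivity)
    (by positivity)
  have hc0 : 0 < c := by linarith
  obtain ⟨k0, hk0⟩ := exists_pow_lt_of_lt_one (by positivity : 0 < 1 / (2 * c))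
    (by norm_num : (1 / 4 : ℝ) < 1)
  -- the error term
  obtain ⟨C, hC, hmax⟩ := maximal hn hp (slow_wt (n := n) hα (j + 1)) (by positivity : 0 < 8 * c)
  obtain ⟨w, hw, hwm⟩ := exists_maximizer (differentiable_radial hg).continuous
    (by positivity : 0 < 8 * c)
  have hU0 := hmax (radial g) (differentiable_radial hg) w hw
  obtain ⟨U, hU⟩ : ∃ U : E n → ℝ≥0∞, U = fun z => ENNReal.ofReal (2 ^ p * (16 * c) ^ p) *
    ENNReal.ofReal (‖radial g (w z)‖ ^ p * wt α (j + 1) z ^ p) := ⟨_, rfl⟩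
  have hUfin : ∫⁻ z, U z < ⊤ := by
    rw [hU]
    simp only
    rw [lintegral_const_mul' _ _ ENNReal.ofReal_ne_top]
    exact ENNReal.mul_lt_top ENNReal.ofReal_lt_top
      (lt_of_le_of_lt hU0 (ENNReal.mul_lt_top ENNReal.ofReal_lt_top h))
  obtain ⟨F, hF⟩ : ∃ F : E n → ℝ≥0∞, F = fun z => ENNReal.ofReal (‖g z‖ ^ p * wt α j z ^ p) :=
    ⟨_, rfl⟩
  have hFc : Continuous (fun z : E n => ‖g z‖ ^ p * wt α j z ^ p) :=
    (hg.continuous.norm.rpow_const (fun _ => Or.inr hp.le)).mul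
      ((continuous_wt α j).rpow_const (fun _ => Or.inr hp.le))
  have hFm : Measurable F := by
    rw [hF]; exact hFc.measurable.ennreal_ofReal
  obtain ⟨a, ha⟩ : ∃ a : ℕ → ℝ≥0∞, a = fun k => ∫⁻ z in Sh k, F z := ⟨_, rfl⟩
  -- integrals over bounded sets are finite
  have hbd : ∀ R : ℝ, ∫⁻ z in ball (0 : E n) R, F z < ⊤ := by
    intro R
    rcases (isCompact_closedBall (0 : E n) R).exists_bound_of_continuousOn hFc.continuousOn with
      ⟨B, hB⟩
    calc ∫⁻ z in ball (0 : E n) R, F z ≤ ∫⁻ z in ball (0 : E n) R, ENNReal.ofReal B := by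
          apply setLIntegral_mono' measurableSet_ball
          intro z hz
          rw [hF]
          apply ENNReal.ofReal_le_ofReal
          exact (le_abs_self _).trans (hB z (ball_subset_closedBall hz))
      _ < ⊤ := by
          rw [setLIntegral_const]
          exact ENNReal.mul_lt_top ENNReal.ofReal_lt_top measure_ball_lt_top
  have hafin : ∀ k, a k < ⊤ := by
    intro k
    rw [ha]
    refine lt_of_le_of_lt (lintegral_mono_set ?_) (hbd (2 ^ (k + 1)))
    intro z hz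
    rw [mem_ball_zero_iff]
    exact hz.2
  -- one step
  have hstep : ∀ k, k0 ≤ k → a (k + 1) ≤ ENNReal.ofReal (1 / 3) * (a (k + 1) + a k) +
      ∫⁻ z in Sh (k + 1), U z := by
    intro k hk
    have hck : c * (1 / 4 : ℝ) ^ (k + 1) ≤ 1 / 2 := by
      have h1 : (1 / 4 : ℝ) ^ (k + 1) ≤ (1 / 4) ^ k0 :=
        pow_le_pow_of_le_one (by norm_num) (by norm_num) (by omega)
      have h2 : (1 / 4 : ℝ) ^ (k + 1) ≤ 1 / (2 * c) := h1.trans hk0.le
      calc c * (1 / 4 : ℝ) ^ (k + 1) ≤ c * (1 / (2 * c)) := by gcongr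
        _ = 1 / 2 := by field_simp
    obtain ⟨t, ht⟩ : ∃ t : ℝ, t = 1 - c * (1 / 4) ^ (k + 1) := ⟨_, rfl⟩
    have ht1 : 1 / 2 ≤ t := by rw [ht]; linarith
    have ht2 : t ≤ 1 := by
      have : 0 < c * (1 / 4 : ℝ) ^ (k + 1) := by positivity
      rw [ht]; linarith
    have ht0 : 0 < t := by linarith
    obtain ⟨G, hG⟩ : ∃ G : E n → ℝ≥0∞, G = (Sh (k + 1) ∪ Sh k).indicator F := ⟨_, rfl⟩
    have hGm : Measurable G := by
      rw [hG]; exact hFm.indicator ((measurableSet_Sh _).union (measurableSet_Sh _))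
    have hpt : ∀ z ∈ (Sh (k + 1) : Set (E n)), F z ≤
        ENNReal.ofReal (2 ^ p * Real.exp (-(α / 2 * p * c))) * G (0 + t • z) + U z := by
      intro z hz
      have hzn := norm_nonneg z
      have hmem : t • z ∈ (Sh (k + 1) ∪ Sh k : Set (E n)) := by
        have h1 : ‖t • z‖ = t * ‖z‖ := by rw [norm_smul, Real.norm_eq_abs, abs_of_pos ht0]
        have h2 : (2 : ℝ) ^ k ≤ t * ‖z‖ := by
          have := hz.1
          rw [pow_succ] at this
          nlinarith
        have h3 : t * ‖z‖ < 2 ^ (k + 1 + 1) := by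
          have := hz.2
          nlinarith
        rcases le_or_gt ((2 : ℝ) ^ (k + 1)) (t * ‖z‖) with h4 | h4
        · left
          exact ⟨by rw [h1]; exact h4, by rw [h1]; exact h3⟩
        · right
          exact ⟨by rw [h1]; exact h2, by rw [h1]; exact h4⟩
      rw [zero_add, hG, indicator_of_mem hmem, hF, hU]
      simp only
      rw [← ENNReal.ofReal_mul (by positivity), ← ENNReal.ofReal_mul (by positivity)]
      have hw1 := wt_pos α j z
      have hw2 := wt_pos α j (t • z)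
      have hw3 := wt_pos α (j + 1) z
      rw [← ENNReal.ofReal_add (by positivity) (by positivity)]
      apply ENNReal.ofReal_le_ofReal
      have h5 := ray_diff hg hc1 hck hz (hwm z)
      rw [← ht] at h5
      have h6 : ‖g z‖ ≤ ‖g (t • z)‖ + 16 * c * ‖radial g (w z)‖ / (1 + ‖z‖ ^ 2) := by
        have := norm_sub_norm_le (g z) (g (t • z))
        linarith
      have h7 : ‖g z‖ ^ p ≤ 2 ^ p * (‖g (t • z)‖ ^ p +
          (16 * c * ‖radial g (w z)‖ / (1 + ‖z‖ ^ 2)) ^ p) :=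
        (Real.rpow_le_rpow (norm_nonneg _) h6 hp.le).trans
          (add_rpow_le (norm_nonneg _) (by positivity) hp)
      have h8 : wt α j z ≤ Real.exp (-(α * c / 2)) * wt α j (t • z) := by
        apply wt_decay hα j ht0.le ht2
        have h9 : (2 : ℝ) ^ (k + 1) ≤ ‖z‖ := hz.1
        have h10 : ((2 : ℝ) ^ (k + 1)) ^ 2 ≤ ‖z‖ ^ 2 := by gcongr
        have h11 : ((2 : ℝ) ^ (k + 1)) ^ 2 * (1 - t) = c := by
          have e1 : 1 - t = c * (1 / 4) ^ (k + 1) := by rw [ht]; ring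
          have e2 : ((2 : ℝ) ^ (k + 1)) ^ 2 = 4 ^ (k + 1) := by
            rw [← pow_mul, mul_comm, pow_mul]
            norm_num
          rw [e1, e2, mul_left_comm, ← mul_pow]
          norm_num
        have h12 : 1 - t ≤ 1 - t ^ 2 := by nlinarith
        calc c = ((2 : ℝ) ^ (k + 1)) ^ 2 * (1 - t) := h11.symm
          _ ≤ ‖z‖ ^ 2 * (1 - t ^ 2) := by
            apply mul_le_mul h10 h12 (by linarith) (by positivity)
      have h13 : wt α j z ^ p ≤ Real.exp (-(α / 2 * p * c)) * wt α j (t • z) ^ p := by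
        calc wt α j z ^ p ≤ (Real.exp (-(α * c / 2)) * wt α j (t • z)) ^ p :=
              Real.rpow_le_rpow hw1.le h8 hp.le
          _ = _ := by
              rw [Real.mul_rpow (Real.exp_pos _).le hw2.le, ← Real.exp_mul]
              congr 2
              ring
      have h14 : (16 * c * ‖radial g (w z)‖ / (1 + ‖z‖ ^ 2)) ^ p * wt α j z ^ p =
          (16 * c) ^ p * (‖radial g (w z)‖ ^ p * wt α (j + 1) z ^ p) := by
        rw [wt_succ, ← Real.mul_rpow (by positivity) hw1.le, ← Real.mul_rpow (norm_nonneg _)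
          (by positivity), ← Real.mul_rpow (by positivity) (by positivity)]
        congr 1
        ring
      calc ‖g z‖ ^ p * wt α j z ^ p ≤ 2 ^ p * (‖g (t • z)‖ ^ p +
            (16 * c * ‖radial g (w z)‖ / (1 + ‖z‖ ^ 2)) ^ p) * wt α j z ^ p := by gcongr
        _ = 2 ^ p * ‖g (t • z)‖ ^ p * wt α j z ^ p +
            2 ^ p * ((16 * c * ‖radial g (w z)‖ / (1 + ‖z‖ ^ 2)) ^ p * wt α j z ^ p) := by ring
        _ ≤ 2 ^ p * ‖g (t • z)‖ ^ p * (Real.exp (-(α / 2 * p * c)) * wt α j (t • z) ^ p) +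
            2 ^ p * ((16 * c * ‖radial g (w z)‖ / (1 + ‖z‖ ^ 2)) ^ p * wt α j z ^ p) := by gcongr
        _ = _ := by rw [h14]; ring
    have hGint : ∫⁻ z, G (0 + t • z) ≤ ENNReal.ofReal (2 ^ d) * (a (k + 1) + a k) := by
      rw [lintegral_scale ht0 0 G hGm, hG, lintegral_indicator
        ((measurableSet_Sh _).union (measurableSet_Sh _)), ha]
      have h1 : (t ^ Module.finrank ℝ (E n))⁻¹ ≤ 2 ^ d := by
        rw [← hd, ← inv_pow]
        gcongr
        rw [inv_le_comm₀ ht0 two_pos]; linarith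
      gcongr
      exact lintegral_union_le _ _ _
    calc a (k + 1) ≤ ∫⁻ z in Sh (k + 1),
          (ENNReal.ofReal (2 ^ p * Real.exp (-(α / 2 * p * c))) * G (0 + t • z) + U z) := by
          rw [ha]
          exact setLIntegral_mono' (measurableSet_Sh _) hpt
      _ = ENNReal.ofReal (2 ^ p * Real.exp (-(α / 2 * p * c))) * (∫⁻ z in Sh (k + 1),
          G (0 + t • z)) + ∫⁻ z in Sh (k + 1), U z := by
          rw [lintegral_add_left, lintegral_const_mul' _ _ ENNReal.ofReal_ne_top]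
          apply Measurable.const_mul
          exact hGm.comp (by fun_prop)
      _ ≤ ENNReal.ofReal (2 ^ p * Real.exp (-(α / 2 * p * c))) *
          (ENNReal.ofReal (2 ^ d) * (a (k + 1) + a k)) + ∫⁻ z in Sh (k + 1), U z := by
          gcongr
          exact (setLIntegral_le_lintegral _ _).trans hGint
      _ ≤ _ := by
          rw [← mul_assoc, ← ENNReal.ofReal_mul (by positivity)]
          gcongr
          calc _ = 2 ^ p * 2 ^ d * Real.exp (-(α / 2 * p * c)) := by ring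
            _ ≤ 1 / 3 := hc
  -- summation
  have hdisj : Pairwise (Function.onFun Disjoint (fun k : ℕ => (Sh (k0 + k + 1) : Set (E n)))) := by
    have haux : ∀ i k : ℕ, i < k → Disjoint (Sh (k0 + i + 1) : Set (E n)) (Sh (k0 + k + 1)) := by
      intro i k hik
      rw [Set.disjoint_left]
      intro z hz1 hz2
      have h1 := hz1.2
      have h2 := hz2.1
      have h3 : (2 : ℝ) ^ (k0 + i + 1 + 1) ≤ 2 ^ (k0 + k + 1) :=
        pow_le_pow_right₀ (by norm_num) (by omega)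
      linarith
    intro i k hik
    rcases lt_or_gt_of_ne hik with h1 | h1
    · exact haux i k h1
    · exact (haux k i h1).symm
  have hUsum : ∑' k, ∫⁻ z in Sh (k0 + k + 1), U z ≤ ∫⁻ z, U z := by
    rw [← lintegral_iUnion (fun k => measurableSet_Sh _) hdisj]
    exact setLIntegral_le_lintegral _ _
  have hpart : ∀ M, ∑ k ∈ Finset.range M, a (k0 + k + 1) ≤ a k0 + 3 * ∫⁻ z, U z := by
    intro M
    apply absorb
    · rw [ne_eq, ENNReal.sum_eq_top]
      push Not
      intro k _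
      exact (hafin _).ne
    · have h1 : ∑ k ∈ Finset.range M, a (k0 + k) ≤
          a k0 + ∑ k ∈ Finset.range M, a (k0 + k + 1) := by
        calc ∑ k ∈ Finset.range M, a (k0 + k) ≤ ∑ k ∈ Finset.range (M + 1), a (k0 + k) := by
              apply Finset.sum_le_sum_of_subset
              exact Finset.range_mono (by omega)
          _ = _ := by
              rw [Finset.sum_range_succ', add_comm]
              rfl
      calc ∑ k ∈ Finset.range M, a (k0 + k + 1) ≤ ∑ k ∈ Finset.range M,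
            (ENNReal.ofReal (1 / 3) * (a (k0 + k + 1) + a (k0 + k)) +
              ∫⁻ z in Sh (k0 + k + 1), U z) := by
            apply Finset.sum_le_sum
            intro k _
            exact hstep (k0 + k) (by omega)
        _ = ENNReal.ofReal (1 / 3) * (∑ k ∈ Finset.range M, a (k0 + k + 1) +
              ∑ k ∈ Finset.range M, a (k0 + k)) +
              ∑ k ∈ Finset.range M, ∫⁻ z in Sh (k0 + k + 1), U z := by
            rw [Finset.sum_add_distrib, ← Finset.mul_sum, Finset.sum_add_distrib]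
        _ ≤ _ := by
            gcongr
            exact (ENNReal.sum_le_tsum _).trans hUsum
  have htot : ∑' k, a (k0 + k + 1) ≤ a k0 + 3 * ∫⁻ z, U z := ENNReal.tsum_le_of_sum_range_le hpart
  have hcover : (ball (0 : E n) (2 ^ (k0 + 1)))ᶜ ⊆ ⋃ k, (Sh (k0 + k + 1) : Set (E n)) := by
    intro z hz
    rw [mem_compl_iff, mem_ball_zero_iff, not_lt] at hz
    have h1 : (1 : ℝ) ≤ ‖z‖ := (one_le_pow₀ (by norm_num)).trans hz
    obtain ⟨m, hm1, hm2⟩ := exists_nat_pow_near h1 (by norm_num : (1 : ℝ) < 2)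
    have h2 : k0 + 1 < m + 1 := by
      have h3 : (2 : ℝ) ^ (k0 + 1) < 2 ^ (m + 1) := lt_of_le_of_lt hz hm2
      exact (pow_lt_pow_iff_right₀ (by norm_num : (1 : ℝ) < 2)).1 h3
    rw [mem_iUnion]
    refine ⟨m - (k0 + 1), ?_⟩
    have e : k0 + (m - (k0 + 1)) + 1 = m := by omega
    rw [e]
    exact ⟨hm1, hm2⟩
  have hfinal : FI p α j g ≤ (∫⁻ z in ball (0 : E n) (2 ^ (k0 + 1)), F z) +
      (a k0 + 3 * ∫⁻ z, U z) := by
    unfold FI
    have h1 : ∫⁻ z, ENNReal.ofReal (‖g z‖ ^ p * wt α j z ^ p) = ∫⁻ z, F z := by rw [hF]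
    rw [h1, ← lintegral_add_compl F (measurableSet_ball (x := (0 : E n)) (ε := 2 ^ (k0 + 1)))]
    gcongr
    refine (lintegral_mono_set hcover).trans ?_
    rw [lintegral_iUnion (fun k => measurableSet_Sh _) hdisj]
    rw [ha] at htot
    rw [ha]
    exact htot
  refine lt_of_le_of_lt hfinal ?_
  exact ENNReal.add_lt_top.2 ⟨hbd _, ENNReal.add_lt_top.2 ⟨hafin _,
    ENNReal.mul_lt_top (by norm_num) hUfin⟩⟩

end Q72.FockR
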