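import Mathlib
import Pool.Agent.Q72.FockR.Main

/-!
# The case `p = ∞` and the passage to `MemLp`
-/

set_option autoImplicit false

open MeasureTheory Set Filter Topology ENNReal Metric

namespace Q72.FockR

variable {n : ℕ}

/-- `f ∈ L^p_α`: `f (z) exp (-α |z|² / 2)` is in `L^p(ℂⁿ, dv)`. -/
def MemL (p : ℝ≥0∞) (α : ℝ) (f : E n → ℂ) : Prop :=
  MemLp (fun z => f z * ((Real.exp (-(α * ‖z‖ ^ 2 / 2)) : ℝ) : ℂ)) p volume

lemma norm_weighted (α : ℝ) (j : ℕ) (g : E n → ℂ) (z : E n) :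
    ‖g z / (((1 + ‖z‖ ^ 2) ^ j : ℝ) : ℂ) * ((Real.exp (-(α * ‖z‖ ^ 2 / 2)) : ℝ) : ℂ)‖ =
      ‖g z‖ * wt α j z := by
  rw [norm_mul, norm_div, Complex.norm_real, Complex.norm_real, Real.norm_eq_abs, Real.norm_eq_abs,
    abs_of_pos (Real.exp_pos _), abs_of_pos (by positivity)]
  unfold wt
  ring

lemma continuous_weighted (α : ℝ) (j : ℕ) {g : E n → ℂ} (hg : Continuous g) :
    Continuous (fun z => g z / (((1 + ‖z‖ ^ 2) ^ j : ℝ) : ℂ) *
      ((Real.exp (-(α * ‖z‖ ^ 2 / 2)) : ℝ) : ℂ)) := by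
  apply Continuous.mul
  · apply Continuous.div hg (by fun_prop)
    intro z
    rw [Complex.ofReal_ne_zero]
    positivity
  · fun_prop

lemma memL_iff_FI {p : ℝ≥0∞} (hp0 : p ≠ 0) (hpt : p ≠ ⊤) (α : ℝ) (j : ℕ) {g : E n → ℂ}
    (hg : Continuous g) :
    MemL p α (fun z => g z / (((1 + ‖z‖ ^ 2) ^ j : ℝ) : ℂ)) ↔ FI p.toReal α j g < ⊤ := by
  unfold MemL
  have h1 := (continuous_weighted α j hg).aestronglyMeasurable (μ := (volume : Measure (E n)))
  rw [MemLp, and_iff_right h1, eLpNorm_lt_top_iff_lintegral_rpow_enorm_lt_top hp0 hpt]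
  unfold FI
  have hp := ENNReal.toReal_nonneg (a := p)
  have h2 : ∀ z : E n, ‖g z / (((1 + ‖z‖ ^ 2) ^ j : ℝ) : ℂ) *
      ((Real.exp (-(α * ‖z‖ ^ 2 / 2)) : ℝ) : ℂ)‖ₑ ^ p.toReal =
      ENNReal.ofReal (‖g z‖ ^ p.toReal * wt α j z ^ p.toReal) := by
    intro z
    rw [← ofReal_norm, norm_weighted, ENNReal.ofReal_rpow_of_nonneg
      (mul_nonneg (norm_nonneg _) (wt_pos α j z).le) hp,
      Real.mul_rpow (norm_nonneg _) (wt_pos α j z).le]
  simp_rw [h2]

/-- a continuous function is in `L^∞` iff it is bounded -/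
lemma memLp_top_iff_bounded {F : E n → ℂ} (hF : Continuous F) :
    MemLp F ⊤ volume ↔ ∃ M : ℝ, ∀ z, ‖F z‖ ≤ M := by
  constructor
  · intro h
    have h1 := h.eLpNorm_lt_top
    rw [eLpNorm_exponent_top] at h1
    obtain ⟨M, hM⟩ : ∃ M : ℝ, M = (eLpNormEssSup F volume).toReal := ⟨_, rfl⟩
    refine ⟨M, ?_⟩
    have h2 : ∀ᵐ z, ‖F z‖ ≤ M := by
      filter_upwards [ae_le_eLpNormEssSup (f := F) (μ := volume)] with z hz
      rw [hM, ← toReal_enorm]
      exact ENNReal.toReal_mono h1.ne hz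
    by_contra hc
    push Not at hc
    obtain ⟨z, hz⟩ := hc
    have hopen : IsOpen {y : E n | M < ‖F y‖} := isOpen_lt continuous_const hF.norm
    have h3 : volume {y : E n | M < ‖F y‖} = 0 := by
      have : {y : E n | M < ‖F y‖} = {y : E n | ‖F y‖ ≤ M}ᶜ := by
        ext y
        simp
      rw [this]
      exact h2
    have h4 := (hopen.measure_eq_zero_iff (μ := (volume : Measure (E n)))).1 h3
    have h5 : z ∈ {y : E n | M < ‖F y‖} := hz
    rw [h4] at h5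
    exact h5
  · rintro ⟨M, hM⟩
    exact memLp_top_of_bound hF.aestronglyMeasurable M (Eventually.of_forall hM)

lemma memL_top_iff (α : ℝ) (j : ℕ) {g : E n → ℂ} (hg : Continuous g) :
    MemL ⊤ α (fun z => g z / (((1 + ‖z‖ ^ 2) ^ j : ℝ) : ℂ)) ↔
      ∃ M : ℝ, ∀ z, ‖g z‖ * wt α j z ≤ M := by
  unfold MemL
  rw [memLp_top_iff_bounded (continuous_weighted α j hg)]
  simp_rw [norm_weighted]

lemma top_fwd {α : ℝ} (hα : 0 < α) (j : ℕ) {g : E n → ℂ} (hg : Differentiable ℂ g)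
    (h : ∃ M : ℝ, ∀ z, ‖g z‖ * wt α j z ≤ M) :
    ∃ M : ℝ, ∀ z, ‖radial g z‖ * wt α (j + 1) z ≤ M := by
  obtain ⟨M, hM⟩ := h
  obtain ⟨C, hC, hslow⟩ := (slow_wt (n := n) hα j).2.2 3
  refine ⟨C * M, fun z => ?_⟩
  have hw := wt_pos α j z
  have hz0 := norm_nonneg z
  have h1 : ‖radial g z‖ ≤ (1 + ‖z‖ ^ 2) * (C * M / wt α j z) := by
    apply norm_radial_le hg
    intro y hy
    have h2 : ‖y - z‖ < 3 / (1 + ‖z‖) := by
      refine lt_of_le_of_lt hy ?_
      gcongr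
      norm_num
    have h3 := hslow y z h2
    rw [le_div_iff₀ hw]
    calc ‖g y‖ * wt α j z ≤ ‖g y‖ * (C * wt α j y) := by gcongr
      _ = C * (‖g y‖ * wt α j y) := by ring
      _ ≤ C * M := by gcongr; exact hM y
  rw [wt_succ]
  calc ‖radial g z‖ * (wt α j z / (1 + ‖z‖ ^ 2)) ≤
        (1 + ‖z‖ ^ 2) * (C * M / wt α j z) * (wt α j z / (1 + ‖z‖ ^ 2)) := by gcongr
    _ = C * M := by field_simp

lemma top_bwd {α : ℝ} (hα : 0 < α) (j : ℕ) {g : E n → ℂ} (hg : Differentiable ℂ g)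
    (h : ∃ M : ℝ, ∀ z, ‖radial g z‖ * wt α (j + 1) z ≤ M) :
    ∃ M : ℝ, ∀ z, ‖g z‖ * wt α j z ≤ M := by
  obtain ⟨M, hM⟩ := h
  have hM0 : 0 ≤ M := (mul_nonneg (norm_nonneg _) (wt_pos _ _ _).le).trans (hM 0)
  obtain ⟨A, hA⟩ := (isCompact_closedBall (0 : E n) 1).exists_bound_of_continuousOn
    hg.continuous.continuousOn
  have hA0 : 0 ≤ A := (norm_nonneg _).trans (hA 0 (by simp))
  have hwt1 : ∀ z : E n, wt α j z ≤ 1 := by
    intro z
    unfold wt
    apply div_le_one_of_le₀ _ (by positivity)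
    calc Real.exp (-(α * ‖z‖ ^ 2 / 2)) ≤ 1 := by
          rw [Real.exp_le_one_iff]
          have : 0 ≤ α * ‖z‖ ^ 2 / 2 := by positivity
          linarith
      _ ≤ (1 + ‖z‖ ^ 2) ^ j := by
          apply one_le_pow₀
          have := sq_nonneg ‖z‖
          linarith
  refine ⟨A + 2 * M / α, fun z => ?_⟩
  have hw := wt_pos α j z
  rcases le_or_gt ‖z‖ 1 with hz | hz
  · have h1 := hA z (by simpa using hz)
    have h2 := hwt1 z
    have h3 : 0 ≤ 2 * M / α := by positivity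
    calc ‖g z‖ * wt α j z ≤ A * 1 := by gcongr
      _ ≤ _ := by linarith
  · obtain ⟨ρ, hρ⟩ : ∃ ρ : ℝ, ρ = ‖z‖ := ⟨_, rfl⟩
    have hρ1 : 1 < ρ := by rw [hρ]; exact hz
    obtain ⟨B, hB⟩ : ∃ B : ℝ → ℝ, B = fun s => A + 2 * M / α *
      ((1 + s ^ 2 * ρ ^ 2) ^ j * Real.exp (α * (s ^ 2 * ρ ^ 2) / 2)) := ⟨_, rfl⟩
    obtain ⟨B', hB'⟩ : ∃ B' : ℝ → ℝ, B' = fun s => 2 * M / α *
      (((j : ℝ) * (1 + s ^ 2 * ρ ^ 2) ^ (j - 1) * (2 * s * ρ ^ 2)) *
        Real.exp (α * (s ^ 2 * ρ ^ 2) / 2) + (1 + s ^ 2 * ρ ^ 2) ^ j *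
        (Real.exp (α * (s ^ 2 * ρ ^ 2) / 2) * (α * s * ρ ^ 2))) := ⟨_, rfl⟩
    have hderB : ∀ s, HasDerivAt B (B' s) s := by
      intro s
      have h1 : HasDerivAt (fun s : ℝ => 1 + s ^ 2 * ρ ^ 2) (2 * s * ρ ^ 2) s := by
        have := ((hasDerivAt_pow 2 s).mul_const (ρ ^ 2)).const_add 1
        simpa using this
      have h2 := h1.pow j
      have h3 : HasDerivAt (fun s : ℝ => α * (s ^ 2 * ρ ^ 2) / 2) (α * s * ρ ^ 2) s := by
        have := (((hasDerivAt_pow 2 s).mul_const (ρ ^ 2)).const_mul α).div_const 2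
        have e : α * (((2 : ℕ) : ℝ) * s ^ (2 - 1) * ρ ^ 2) / 2 = α * s * ρ ^ 2 := by
          push_cast; ring
        rw [e] at this
        exact this
      have h4 := ((h2.mul h3.exp).const_mul (2 * M / α)).const_add A
      rw [hB, hB']
      exact h4
    have key := image_norm_le_of_norm_deriv_right_le_deriv_boundary (a := 1 / ρ) (b := 1)
      (f := fun s : ℝ => g (s • z)) (f' := fun s => fderiv ℂ g (s • z) z) (B := B) (B' := B')
      (by
        intro s _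
        exact (hasDerivAt_ray hg z s).continuousAt.continuousWithinAt)
      (fun s _ => (hasDerivAt_ray hg z s).hasDerivWithinAt)
      (by
        have h1 : ‖g ((1 / ρ) • z)‖ ≤ A := by
          apply hA
          rw [mem_closedBall_zero_iff, norm_smul, ← hρ, Real.norm_eq_abs,
            abs_of_pos (by positivity)]
          rw [one_div, inv_mul_cancel₀ (by linarith)]
        rw [hB]
        refine h1.trans ?_
        have : 0 ≤ 2 * M / α * ((1 + (1 / ρ) ^ 2 * ρ ^ 2) ^ j *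
          Real.exp (α * ((1 / ρ) ^ 2 * ρ ^ 2) / 2)) := by positivity
        linarith)
      hderB
      (by
        intro s hs
        have hs0 : 0 < s := lt_of_lt_of_le (by positivity) hs.1
        have hsρ : 1 ≤ s * ρ := by
          have := hs.1
          rw [div_le_iff₀ (by linarith)] at this
          exact this
        rw [ray_eq g z hs0.ne', norm_mul, norm_inv, Complex.norm_real, Real.norm_eq_abs,
          abs_of_pos hs0]
        have h1 := hM (s • z)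
        have h2 : ‖s • z‖ ^ 2 = s ^ 2 * ρ ^ 2 := by
          rw [norm_smul, Real.norm_eq_abs, abs_of_pos hs0, mul_pow, hρ]
        unfold wt at h1
        rw [h2, mul_div_assoc', div_le_iff₀ (by positivity)] at h1
        have h3 : ‖radial g (s • z)‖ ≤ M * (1 + s ^ 2 * ρ ^ 2) ^ (j + 1) *
            Real.exp (α * (s ^ 2 * ρ ^ 2) / 2) := by
          have h4 : ‖radial g (s • z)‖ = ‖radial g (s • z)‖ *
              Real.exp (-(α * (s ^ 2 * ρ ^ 2) / 2)) * Real.exp (α * (s ^ 2 * ρ ^ 2) / 2) := by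
            rw [mul_assoc, ← Real.exp_add]
            simp
          rw [h4]
          gcongr
        have h5 : 1 + s ^ 2 * ρ ^ 2 ≤ 2 * (s ^ 2 * ρ ^ 2) := by nlinarith
        obtain ⟨X, hX⟩ : ∃ X : ℝ, X = (1 + s ^ 2 * ρ ^ 2) ^ j := ⟨_, rfl⟩
        obtain ⟨Y, hY⟩ : ∃ Y : ℝ, Y = Real.exp (α * (s ^ 2 * ρ ^ 2) / 2) := ⟨_, rfl⟩
        have hX0 : 0 < X := by rw [hX]; positivity
        have hY0 : 0 < Y := by rw [hY]; positivity
        have h6 : s⁻¹ * ‖radial g (s • z)‖ ≤ 2 * M * s * ρ ^ 2 * X * Y := by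
          calc s⁻¹ * ‖radial g (s • z)‖ ≤ s⁻¹ * (M * (1 + s ^ 2 * ρ ^ 2) ^ (j + 1) * Y) := by
                rw [hY]
                gcongr
            _ = s⁻¹ * (M * (X * (1 + s ^ 2 * ρ ^ 2)) * Y) := by rw [pow_succ, hX]
            _ ≤ s⁻¹ * (M * (X * (2 * (s ^ 2 * ρ ^ 2))) * Y) := by gcongr
            _ = _ := by field_simp
        refine h6.trans ?_
        rw [hB']
        simp only
        rw [← hX, ← hY]
        have h7 : 2 * M / α * (X * (Y * (α * s * ρ ^ 2))) = 2 * M * s * ρ ^ 2 * X * Y := by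
          field_simp
        rw [mul_add, h7]
        have h8 : 0 ≤ 2 * M / α * ((j : ℝ) * (1 + s ^ 2 * ρ ^ 2) ^ (j - 1) * (2 * s * ρ ^ 2) * Y) := by
          positivity
        linarith)
      (x := 1) ⟨by rw [div_le_iff₀ (by linarith)]; linarith, le_rfl⟩
    rw [one_smul, hB] at key
    simp only [one_pow, one_mul] at key
    have h9 : (1 + ρ ^ 2) ^ j * Real.exp (α * ρ ^ 2 / 2) * wt α j z = 1 := by
      unfold wt
      rw [← hρ, Real.exp_neg]
      field_simp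
    calc ‖g z‖ * wt α j z ≤ (A + 2 * M / α * ((1 + ρ ^ 2) ^ j * Real.exp (α * ρ ^ 2 / 2))) *
          wt α j z := by gcongr
      _ = A * wt α j z + 2 * M / α * ((1 + ρ ^ 2) ^ j * Real.exp (α * ρ ^ 2 / 2) * wt α j z) := by
          ring
      _ ≤ A * 1 + 2 * M / α * 1 := by
          rw [h9]
          have := hwt1 z
          gcongr
      _ = _ := by ring

/-- one step -/
theorem step (hn : 1 ≤ n) {p : ℝ≥0∞} (hp : p ≠ 0) {α : ℝ} (hα : 0 < α) (j : ℕ) {g : E n → ℂ}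
    (hg : Differentiable ℂ g) :
    MemL p α (fun z => g z / (((1 + ‖z‖ ^ 2) ^ j : ℝ) : ℂ)) ↔
      MemL p α (fun z => radial g z / (((1 + ‖z‖ ^ 2) ^ (j + 1) : ℝ) : ℂ)) := by
  have hr := (differentiable_radial hg).continuous
  by_cases hpt : p = ⊤
  · rw [hpt, memL_top_iff α j hg.continuous, memL_top_iff α (j + 1) hr]
    exact ⟨top_fwd hα j hg, top_bwd hα j hg⟩
  · rw [memL_iff_FI hp hpt α j hg.continuous, memL_iff_FI hp hpt α (j + 1) hr]
    have hp' : 0 < p.toReal := ENNReal.toReal_pos hp hpt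
    exact ⟨FI_radial_lt_top hn hp' hα j hg, FI_lt_top hn hp' hα j hg⟩

end Q72.FockR
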